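import Pool.Agent.Y262.QE.Stm

/-!
# QE-LIM: limits of squares of solutions are not constant (helper362)
-/

set_option autoImplicit false

open Set Filter Topology MeasureTheory
open scoped Real ContDiff

noncomputable section

namespace Pool.Agent.Y362.QE

open Pool.Agent.Y262.QE

/-- the solution with the data `q = (k, a, b)` -/
def so (q : ℝ × ℝ × ℝ) (x : ℝ) : ℝ := q.2.1 * cs q.1 x + q.2.2 * sn q.1 x

/-- its derivative -/
def dso (q : ℝ × ℝ × ℝ) (x : ℝ) : ℝ := q.2.1 * (-q.1 * sn q.1 x) + q.2.2 * cs q.1 x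

lemma so_cont (h : StCS) : Continuous fun p : (ℝ × ℝ × ℝ) × ℝ => so p.1 p.2 := by
  obtain ⟨hc, hs, -⟩ := h
  have h1 : Continuous fun p : (ℝ × ℝ × ℝ) × ℝ => cs p.1.1 p.2 :=
    hc.comp ((continuous_fst.comp continuous_fst).prodMk continuous_snd)
  have h2 : Continuous fun p : (ℝ × ℝ × ℝ) × ℝ => sn p.1.1 p.2 :=
    hs.comp ((continuous_fst.comp continuous_fst).prodMk continuous_snd)
  unfold so
  exact ((continuous_fst.comp (continuous_snd.comp continuous_fst)).mul h1).add
    ((continuous_snd.comp (continuous_snd.comp continuous_fst)).mul h2)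

lemma so_cont' (h : StCS) (q : ℝ × ℝ × ℝ) : Continuous (so q) :=
  (so_cont h).comp (continuous_const.prodMk continuous_id)

lemma dso_cont (h : StCS) (q : ℝ × ℝ × ℝ) : Continuous (dso q) := by
  obtain ⟨hc, hs, -⟩ := h
  have h1 : Continuous fun x : ℝ => cs q.1 x := hc.comp (continuous_const.prodMk continuous_id)
  have h2 : Continuous fun x : ℝ => sn q.1 x := hs.comp (continuous_const.prodMk continuous_id)
  unfold dso
  exact (continuous_const.mul (continuous_const.mul h2)).add (continuous_const.mul h1)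

lemma so_deriv (h : StCS) (q : ℝ × ℝ × ℝ) (x : ℝ) : HasDerivAt (so q) (dso q x) x := by
  obtain ⟨-, -, hc, hs, -⟩ := h
  exact ((hc q.1 x).const_mul q.2.1).add ((hs q.1 x).const_mul q.2.2)

/-- parametric integrals -/
lemma par_cont {L : ℝ} (hL : 0 < L) {F : (ℝ × ℝ × ℝ) → ℝ → ℝ} (hF : Continuous F.uncurry) :
    Continuous fun q => ∫ x in Ioo 0 L, F q x := by
  have h1 : (fun q => ∫ x in Ioo 0 L, F q x) = fun q => ∫ x in (0 : ℝ)..L, F q x := by
    funext q
    rw [intervalIntegral.integral_of_le hL.le, integral_Ioc_eq_integral_Ioo]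
  rw [h1]
  exact intervalIntegral.continuous_parametric_intervalIntegral_of_continuous' hF 0 L

lemma int_cont {L : ℝ} {f : ℝ → ℝ} (hf : Continuous f) : IntegrableOn f (Ioo 0 L) :=
  (hf.integrableOn_Icc (a := 0) (b := L)).mono_set Ioo_subset_Icc_self

/-- a solution which vanishes on the interval is trivial -/
lemma so_zero (h : StCS) {L : ℝ} (hL : 0 < L) {q : ℝ × ℝ × ℝ}
    (hq : EqOn (so q) 0 (Ioo 0 L)) : q.2.1 = 0 ∧ q.2.2 = 0 := by
  have h0 : (0 : ℝ) ∈ closure (Ioo 0 L) := by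
    rw [closure_Ioo hL.ne]
    exact ⟨le_rfl, hL.le⟩
  obtain ⟨hc0, hs0⟩ := h.2.2.2.2 q.1
  have h1 : so q 0 = 0 := hq.closure (so_cont' h q) continuous_zero h0
  have h2 : EqOn (dso q) 0 (Ioo 0 L) := by
    intro x hx
    have h3 : so q =ᶠ[𝓝 x] fun _ => 0 := by
      filter_upwards [isOpen_Ioo.mem_nhds hx] with y hy using hq hy
    have h4 : HasDerivAt (so q) 0 x := (hasDerivAt_const x (0 : ℝ)).congr_of_eventuallyEq h3
    exact (so_deriv h q x).unique h4
  have h3 : dso q 0 = 0 := h2.closure (dso_cont h q) continuous_zero h0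
  unfold so at h1
  unfold dso at h3
  rw [hc0, hs0] at h1 h3
  constructor
  · linarith
  · linarith

/-- the norm of a solution -/
def NN (L : ℝ) (q : ℝ × ℝ × ℝ) : ℝ := ∫ x in Ioo 0 L, (so q x) ^ 2

lemma NN_cont (h : StCS) {L : ℝ} (hL : 0 < L) : Continuous (NN L) :=
  par_cont hL ((so_cont h).pow 2)

lemma NN_pos (h : StCS) {L : ℝ} (hL : 0 < L) {q : ℝ × ℝ × ℝ} (hq : q.2.1 ^ 2 + q.2.2 ^ 2 ≠ 0) :
    0 < NN L q := by
  have h0 : 0 ≤ NN L q := integral_nonneg fun x => sq_nonneg _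
  refine lt_of_le_of_ne h0 fun he => ?_
  have hc : Continuous fun x => (so q x) ^ 2 := (so_cont' h q).pow 2
  have h1 := (setIntegral_eq_zero_iff_of_nonneg_ae (μ := volume) (s := Ioo 0 L)
    (f := fun x => (so q x) ^ 2) (Eventually.of_forall fun x => sq_nonneg _) (int_cont hc)).1
    he.symm
  have h2 : EqOn (fun x => (so q x) ^ 2) 0 (Ioo 0 L) :=
    Measure.eqOn_open_of_ae_eq h1 isOpen_Ioo hc.continuousOn continuousOn_const
  have h3 : EqOn (so q) 0 (Ioo 0 L) := fun x hx => pow_eq_zero_iff (two_ne_zero) |>.1 (h2 hx)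
  obtain ⟨h4, h5⟩ := so_zero h hL h3
  apply hq
  rw [h4, h5]
  norm_num

lemma NN_smul (L s k a b : ℝ) : NN L (k, s * a, s * b) = s ^ 2 * NN L (k, a, b) := by
  unfold NN
  rw [← integral_const_mul]
  congr 1
  funext x
  unfold so
  ring

/-- the norm is bounded from below -/
lemma NN_low (h : StCS) {L r : ℝ} (hL : 0 < L) (hr : 0 ≤ r) : ∃ δ : ℝ, 0 < δ ∧
    ∀ k a b : ℝ, |k| ≤ r → δ * (a ^ 2 + b ^ 2) ≤ NN L (k, a, b) := by
  set S : Set (ℝ × ℝ × ℝ) := {q | |q.1| ≤ r ∧ q.2.1 ^ 2 + q.2.2 ^ 2 = 1} with hS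
  have hcl : IsClosed S := by
    refine IsClosed.inter ?_ ?_
    · exact isClosed_le (continuous_fst.abs) continuous_const
    · exact isClosed_eq (((continuous_fst.comp continuous_snd).pow 2).add
        ((continuous_snd.comp continuous_snd).pow 2)) continuous_const
  have hsub : S ⊆ Icc (-r) r ×ˢ (Icc (-1) 1 ×ˢ Icc (-1) 1) := by
    rintro ⟨k, a, b⟩ ⟨h1, h2⟩
    change |k| ≤ r at h1
    change a ^ 2 + b ^ 2 = 1 at h2
    refine ⟨abs_le.1 h1, abs_le.1 ?_, abs_le.1 ?_⟩
    · exact abs_le_of_sq_le_sq (by nlinarith [sq_nonneg b]) zero_le_one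
    · exact abs_le_of_sq_le_sq (by nlinarith [sq_nonneg a]) zero_le_one
  have hcomp : IsCompact S :=
    (isCompact_Icc.prod (isCompact_Icc.prod isCompact_Icc)).of_isClosed_subset hcl hsub
  have hne : S.Nonempty := ⟨(0, 1, 0), by
    constructor
    · change |(0 : ℝ)| ≤ r
      rw [abs_zero]
      exact hr
    · norm_num⟩
  obtain ⟨q, hq, hmin⟩ := hcomp.exists_isMinOn hne (NN_cont h hL).continuousOn
  have hδ : 0 < NN L q := NN_pos h hL (by rw [hq.2]; norm_num)
  refine ⟨NN L q, hδ, fun k a b hk => ?_⟩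
  by_cases h0 : a ^ 2 + b ^ 2 = 0
  · rw [h0, mul_zero]
    exact integral_nonneg fun x => sq_nonneg _
  have hpos : 0 < a ^ 2 + b ^ 2 := lt_of_le_of_ne (by positivity) (Ne.symm h0)
  set s := Real.sqrt (a ^ 2 + b ^ 2) with hs
  have hs2 : s ^ 2 = a ^ 2 + b ^ 2 := Real.sq_sqrt hpos.le
  have hs0 : 0 < s := Real.sqrt_pos.2 hpos
  have hmem : ((k, a / s, b / s) : ℝ × ℝ × ℝ) ∈ S := by
    refine ⟨hk, ?_⟩
    change (a / s) ^ 2 + (b / s) ^ 2 = 1
    rw [div_pow, div_pow, ← add_div, hs2, div_self h0]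
  have h1 : NN L q ≤ NN L (k, a / s, b / s) := hmin hmem
  have h2 : NN L (k, a, b) = s ^ 2 * NN L (k, a / s, b / s) := by
    rw [← NN_smul, mul_div_cancel₀ _ hs0.ne', mul_div_cancel₀ _ hs0.ne']
  rw [h2, hs2, mul_comm]
  exact mul_le_mul_of_nonneg_left h1 hpos.le

/-- a function whose derivative in the sense of distributions vanishes is constant -/
lemma const_of_test {L : ℝ} (hL : 0 < L) {F F' : ℝ → ℝ} (hF : ∀ x, HasDerivAt F (F' x) x)
    (hF' : Continuous F') (h : ∀ η, Tst L η → ∫ x in Ioo 0 L, deriv η x * F x = 0) :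
    ∃ d : ℝ, ∀ x ∈ Ioo 0 L, F x = d := by
  have hFc : Continuous F := continuous_iff_continuousAt.2 fun x => (hF x).continuousAt
  have key : ∀ g : ℝ → ℝ, ContDiff ℝ ∞ g → HasCompactSupport g → tsupport g ⊆ Ioo 0 L →
      ∫ x, g x • F' x = 0 := by
    intro g hg hg1 hg2
    have hz : ∀ x, x ∉ Ioo 0 L → g x = 0 := fun x hx =>
      image_eq_zero_of_notMem_tsupport fun h' => hx (hg2 h')
    have hgd : ∀ x, HasDerivAt g (deriv g x) x := fun x =>
      (hg.differentiable (by simp)).differentiableAt.hasDerivAt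
    have hgc : Continuous (deriv g) := hg.continuous_deriv (by simp)
    have e1 : ∫ x, g x • F' x = ∫ x in Ioo 0 L, g x * F' x := by
      rw [setIntegral_eq_integral_of_forall_compl_eq_zero]
      · rfl
      · intro x hx
        rw [hz x hx, zero_mul]
    have e2 : ∫ x in (0 : ℝ)..L, deriv g x * F x + g x * F' x = g L * F L - g 0 * F 0 :=
      intervalIntegral.integral_deriv_mul_eq_sub (fun x _ => hgd x) (fun x _ => hF x)
        (hgc.intervalIntegrable _ _) (hF'.intervalIntegrable _ _)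
    have e3 : ∫ x in (0 : ℝ)..L, deriv g x * F x + g x * F' x =
        (∫ x in (0 : ℝ)..L, deriv g x * F x) + ∫ x in (0 : ℝ)..L, g x * F' x :=
      intervalIntegral.integral_add ((hgc.mul hFc).intervalIntegrable _ _)
        ((hg.continuous.mul hF').intervalIntegrable _ _)
    rw [hz L (fun h' => lt_irrefl _ h'.2), hz 0 (fun h' => lt_irrefl _ h'.1), zero_mul, zero_mul,
      sub_zero, e3, intervalIntegral.integral_of_le hL.le,
      intervalIntegral.integral_of_le hL.le, integral_Ioc_eq_integral_Ioo,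
      integral_Ioc_eq_integral_Ioo, h g ⟨hg, hg1, hg2⟩, zero_add] at e2
    rw [e1, e2]
  have h1 := isOpen_Ioo.ae_eq_zero_of_integral_contDiff_smul_eq_zero (μ := volume)
    (hF'.locallyIntegrable.locallyIntegrableOn _) key
  have h2 : F' =ᵐ[volume.restrict (Ioo 0 L)] 0 := by
    rw [Filter.EventuallyEq, ae_restrict_iff' measurableSet_Ioo]
    exact h1
  have h3 : EqOn F' 0 (Ioo 0 L) :=
    Measure.eqOn_open_of_ae_eq h2 isOpen_Ioo hF'.continuousOn continuousOn_const
  refine isOpen_Ioo.exists_is_const_of_deriv_eq_zero isPreconnected_Ioo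
    (fun x _ => (hF x).differentiableAt.differentiableWithinAt) ?_
  intro x hx
  rw [(hF x).deriv]
  exact h3 hx

/-- QE-LIM: the squares of a sequence of solutions do not tend to a constant -/
theorem lim : StCS → StLim := by
  intro h L r C c χ hL hc hχ hχ0 k α β hk hC hχc hη
  have hr : 0 ≤ r := (abs_nonneg _).trans (hk 0)
  obtain ⟨δ, hδ, hlow⟩ := NN_low h hL hr
  have hχc' : Continuous χ := hχ.1.continuous
  -- boundedness
  set R := Real.sqrt (C / δ) with hR
  have hbd : ∀ n, α n ^ 2 + β n ^ 2 ≤ C / δ := by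
    intro n
    have h1 := (hlow (k n) (α n) (β n) (hk n)).trans (hC n)
    rw [le_div_iff₀ hδ, mul_comm]
    exact h1
  have hCδ : 0 ≤ C / δ := le_trans (by positivity) (hbd 0)
  have hR2 : R ^ 2 = C / δ := Real.sq_sqrt hCδ
  have hR0 : 0 ≤ R := Real.sqrt_nonneg _
  have hα : ∀ n, |α n| ≤ R := fun n => abs_le_of_sq_le_sq (by
    have := hbd n
    nlinarith [sq_nonneg (β n)]) hR0
  have hβ : ∀ n, |β n| ≤ R := fun n => abs_le_of_sq_le_sq (by
    have := hbd n
    nlinarith [sq_nonneg (α n)]) hR0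
  -- a convergent subsequence
  have hmem : ∀ n, ((k n, α n, β n) : ℝ × ℝ × ℝ) ∈ Icc (-r) r ×ˢ (Icc (-R) R ×ˢ Icc (-R) R) :=
    fun n => ⟨abs_le.1 (hk n), abs_le.1 (hα n), abs_le.1 (hβ n)⟩
  obtain ⟨q, -, φ, hφ, hlim⟩ :=
    (isCompact_Icc.prod (isCompact_Icc.prod isCompact_Icc)).tendsto_subseq hmem
  -- limits of the integrals
  have hI1 : ∀ f : ℝ → ℝ, Continuous f → Tendsto (fun n => ∫ x in Ioo 0 L,
      f x * so (k (φ n), α (φ n), β (φ n)) x) atTop (𝓝 (∫ x in Ioo 0 L, f x * so q x)) := by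
    intro f hf
    have h1 : Continuous fun q => ∫ x in Ioo 0 L, f x * so q x :=
      par_cont hL ((hf.comp continuous_snd).mul (so_cont h))
    exact (h1.tendsto q).comp hlim
  have hI2 : ∀ f : ℝ → ℝ, Continuous f → Tendsto (fun n => ∫ x in Ioo 0 L,
      f x * (so (k (φ n), α (φ n), β (φ n)) x) ^ 2) atTop
      (𝓝 (∫ x in Ioo 0 L, f x * (so q x) ^ 2)) := by
    intro f hf
    have h1 : Continuous fun q => ∫ x in Ioo 0 L, f x * (so q x) ^ 2 :=
      par_cont hL ((hf.comp continuous_snd).mul ((so_cont h).pow 2))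
    exact (h1.tendsto q).comp hlim
  have hχq : c ≤ |∫ x in Ioo 0 L, χ x * so q x| :=
    ge_of_tendsto (hI1 χ hχc').abs (Eventually.of_forall fun n => hχc (φ n))
  have hηq : ∀ η, Tst L η → ∫ x in Ioo 0 L, deriv η x * (so q x) ^ 2 = 0 := by
    intro η hη'
    have hηc : Continuous (deriv η) := hη'.1.continuous_deriv (by simp)
    exact tendsto_nhds_unique (hI2 (deriv η) hηc) ((hη η hη').comp hφ.tendsto_atTop)
  -- the square is constant
  obtain ⟨d, hd⟩ := const_of_test hL (F := fun x => (so q x) ^ 2)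
    (F' := fun x => 2 * so q x * dso q x)
    (fun x => by
      have h1 := (so_deriv h q x).fun_pow 2
      refine h1.congr_deriv ?_
      push_cast
      ring)
    ((continuous_const.mul (so_cont' h q)).mul (dso_cont h q)) hηq
  have hconst : ∃ e : ℝ, EqOn (so q) (fun _ => e) (Ioo 0 L) := by
    have hmid : L / 2 ∈ Ioo 0 L := ⟨by linarith, by linarith⟩
    have hd0 : 0 ≤ d := by
      rw [← hd _ hmid]
      exact sq_nonneg _
    rcases hd0.eq_or_lt with hd0 | hd0
    · refine ⟨0, fun x hx => ?_⟩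
      have h1 := hd x hx
      rw [← hd0] at h1
      exact pow_eq_zero_iff (two_ne_zero) |>.1 h1
    · have hsd : 0 < Real.sqrt d := Real.sqrt_pos.2 hd0
      rcases isPreconnected_Ioo.eq_or_eq_neg_of_sq_eq (S := Ioo 0 L) (f := so q)
        (g := fun _ => Real.sqrt d) (so_cont' h q).continuousOn continuousOn_const
        (fun x hx => by
          change (so q x) ^ 2 = (Real.sqrt d) ^ 2
          rw [Real.sq_sqrt hd0.le]
          exact hd x hx)
        (fun _ => hsd.ne') with h1 | h1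
      · exact ⟨_, h1⟩
      · exact ⟨-Real.sqrt d, h1⟩
  obtain ⟨e, he⟩ := hconst
  have h1 : ∫ x in Ioo 0 L, χ x * so q x = 0 := by
    rw [setIntegral_congr_fun measurableSet_Ioo (g := fun x => χ x * e)
      (fun x hx => by
        change χ x * so q x = χ x * e
        rw [he hx]), integral_mul_const, hχ0, zero_mul]
  rw [h1, abs_zero] at hχq
  linarith

end Pool.Agent.Y362.QE
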